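import Pool.Agent.Helper36.LM.Defs

/-! LM-B1: range, frames, adjacency. -/

set_option autoImplicit false

namespace Pool.Agent.Helper36.LM

open Module Finset

variable {K : Type} [Field K] {E : Type} [AddCommGroup E] [Module K E] [FiniteDimensional K E]
  {ι : Type} [Fintype ι]

theorem finrank_pair {V : Type} [AddCommGroup V] [Module K V] {c d : V}
    (h : ∀ s t : K, s • c + t • d = 0 → s = 0 ∧ t = 0) :
    finrank K (Submodule.span K {c, d}) = 2 := by
  have h1 : LinearIndependent K ![c, d] := LinearIndependent.pair_iff.mpr h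
  have h2 := finrank_span_eq_card h1
  have h3 : Set.range ![c, d] = {c, d} := by
    ext x
    simp only [Matrix.range_cons, Matrix.range_empty, Set.union_empty, Set.mem_union,
      Set.mem_singleton_iff, Set.mem_insert_iff]
  rw [h3, Fintype.card_fin] at h2
  exact h2

namespace Conf

theorem swap (C : Conf K E ι) (ψ φ : E) : C.T ψ φ = - C.T φ ψ := by
  have h := C.alt (ψ + φ)
  simp only [map_add, LinearMap.add_apply, C.alt] at h
  linear_combination h

theorem mem_R_iff (C : Conf K E ι) (f : Dual K E) :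
    f ∈ C.R ↔ ∀ φ, C.T φ = 0 → f φ = 0 := by
  constructor
  · rintro ⟨ψ, rfl⟩ φ hφ
    rw [C.swap, hφ]
    simp
  · intro h
    have h1 : f ∈ (LinearMap.ker C.T).dualAnnihilator := by
      rw [Submodule.mem_dualAnnihilator]
      intro φ hφ
      exact h φ (LinearMap.mem_ker.mp hφ)
    rw [← LinearMap.range_dualMap_eq_dualAnnihilator_ker] at h1
    obtain ⟨F, hF⟩ := h1
    obtain ⟨x, rfl⟩ := (evalEquiv K E).surjective F
    refine ⟨-x, ?_⟩
    rw [← hF]
    ext φ
    rw [map_neg, LinearMap.neg_apply, C.swap x φ, neg_neg]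
    rfl

theorem mem_line_iff (C : Conf K E ι) (i : ι) (f : Dual K E) :
    f ∈ C.line i ↔ ∃ α β : K, f = α • C.a i + β • C.b i := by
  unfold line
  rw [Submodule.mem_span_pair]
  constructor
  · rintro ⟨α, β, h⟩
    exact ⟨α, β, h.symm⟩
  · rintro ⟨α, β, h⟩
    exact ⟨α, β, h.symm⟩

theorem finrank_line (C : Conf K E ι) (i : ι) : finrank K (C.line i) = 2 :=
  finrank_pair (C.ind i)

theorem mem_one_iff (C : Conf K E ι) (i : ι) :
    i ∈ C.one ↔ finrank K (C.line i ⊓ C.R : Submodule K (Dual K E)) = 1 := by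
  classical
  unfold one
  rw [Finset.mem_filter]
  simp

theorem fr_of_mem {C : Conf K E ι} {i : ι} (h : i ∈ C.one) {φ : E} (hφ : C.T φ ∈ C.line i)
    (h0 : C.T φ ≠ 0) : ∃ d, C.Fr i (C.T φ) φ d := by
  rw [mem_one_iff] at h
  have h1 : Submodule.span K {C.T φ} ≤ C.line i ⊓ C.R := by
    rw [Submodule.span_singleton_le_iff_mem]
    exact ⟨hφ, ⟨φ, rfl⟩⟩
  have h2 : Submodule.span K {C.T φ} = C.line i ⊓ C.R := by
    apply Submodule.eq_of_le_of_finrank_eq h1
    rw [h, finrank_span_singleton h0]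
  have h3 : Submodule.span K {C.T φ} < C.line i := by
    apply lt_of_le_of_ne (h1.trans inf_le_left)
    intro h4
    have h5 := C.finrank_line i
    rw [← h4, finrank_span_singleton h0] at h5
    omega
  obtain ⟨d, hd, hd'⟩ := SetLike.exists_of_lt h3
  have hdR : d ∉ C.R := by
    intro hR
    apply hd'
    rw [h2]
    exact ⟨hd, hR⟩
  refine ⟨d, rfl, h0, ?_, hdR⟩
  symm
  apply Submodule.eq_of_le_of_finrank_eq
  · rw [Submodule.span_le]
    intro x hx
    rcases hx with rfl | hx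
    · exact hφ
    · rw [Set.mem_singleton_iff] at hx
      rw [hx]
      exact hd
  · rw [C.finrank_line i]
    apply finrank_pair
    intro s t hst
    have ht : t = 0 := by
      by_contra ht
      apply hd'
      rw [Submodule.mem_span_singleton]
      refine ⟨-(t⁻¹ * s), ?_⟩
      have h6 : t • d = -(s • C.T φ) := by
        rw [eq_neg_iff_add_eq_zero, add_comm]
        exact hst
      calc -(t⁻¹ * s) • C.T φ = t⁻¹ • (-(s • C.T φ)) := by module
        _ = t⁻¹ • (t • d) := by rw [h6]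
        _ = d := by rw [smul_smul, inv_mul_cancel₀ ht, one_smul]
    refine ⟨?_, ht⟩
    rw [ht, zero_smul, add_zero] at hst
    exact (smul_eq_zero.mp hst).resolve_right h0

theorem exists_fr {C : Conf K E ι} {i : ι} (h : i ∈ C.one) : ∃ c ψ d, C.Fr i c ψ d := by
  have h' := h
  rw [mem_one_iff] at h'
  have h1 : (C.line i ⊓ C.R : Submodule K (Dual K E)) ≠ ⊥ := by
    intro h2
    rw [h2, finrank_bot] at h'
    omega
  obtain ⟨c, hc, hc0⟩ := Submodule.exists_mem_ne_zero_of_ne_bot h1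
  obtain ⟨hcl, ψ, rfl⟩ := hc
  obtain ⟨d, hd⟩ := fr_of_mem h hcl hc0
  exact ⟨_, _, _, hd⟩

theorem Fr.c_mem_R {C : Conf K E ι} {i : ι} {c : Dual K E} {ψ : E} {d : Dual K E}
    (h : C.Fr i c ψ d) : c ∈ C.R := ⟨ψ, h.eq⟩

theorem Fr.c_mem_line {C : Conf K E ι} {i : ι} {c : Dual K E} {ψ : E} {d : Dual K E}
    (h : C.Fr i c ψ d) : c ∈ C.line i := by
  rw [h.span]
  exact Submodule.subset_span (by simp)

theorem Fr.d_mem_line {C : Conf K E ι} {i : ι} {c : Dual K E} {ψ : E} {d : Dual K E}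
    (h : C.Fr i c ψ d) : d ∈ C.line i := by
  rw [h.span]
  exact Submodule.subset_span (by simp)

/-- an element of the line in the range is a multiple of `c` -/
theorem Fr.mem_iff {C : Conf K E ι} {i : ι} {c : Dual K E} {ψ : E} {d : Dual K E}
    (h : C.Fr i c ψ d) (f : Dual K E) : (f ∈ C.line i ∧ f ∈ C.R) ↔ ∃ α : K, f = α • c := by
  constructor
  · rintro ⟨h1, h2⟩
    rw [h.span, Submodule.mem_span_pair] at h1
    obtain ⟨x, y, rfl⟩ := h1
    have hy : y = 0 := by
      by_contra hy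
      apply h.nmem
      have h3 : d = y⁻¹ • ((x • c + y • d) - x • c) := by
        rw [add_sub_cancel_left, smul_smul, inv_mul_cancel₀ hy, one_smul]
      rw [h3]
      exact C.R.smul_mem _ (C.R.sub_mem h2 (C.R.smul_mem _ h.c_mem_R))
    refine ⟨x, ?_⟩
    rw [hy, zero_smul, add_zero]
  · rintro ⟨α, rfl⟩
    exact ⟨Submodule.smul_mem _ _ h.c_mem_line, Submodule.smul_mem _ _ h.c_mem_R⟩

theorem Fr.mem_one {C : Conf K E ι} {i : ι} {c : Dual K E} {ψ : E} {d : Dual K E}
    (h : C.Fr i c ψ d) : i ∈ C.one := by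
  rw [mem_one_iff]
  have h1 : (C.line i ⊓ C.R : Submodule K (Dual K E)) = Submodule.span K {c} := by
    ext f
    rw [Submodule.mem_inf, h.mem_iff, Submodule.mem_span_singleton]
    constructor
    · rintro ⟨α, rfl⟩
      exact ⟨α, rfl⟩
    · rintro ⟨α, rfl⟩
      exact ⟨α, rfl⟩
  rw [h1, finrank_span_singleton h.ne]

theorem adj_iff {C : Conf K E ι} {i k : ι} {c c' : Dual K E} {ψ ψ' : E} {d d' : Dual K E}
    (h : C.Fr i c ψ d) (h' : C.Fr k c' ψ' d') : C.adj i k ↔ c ψ' ≠ 0 := by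
  constructor
  · rintro ⟨ψ₁, φ₁, h1, h2, h3⟩
    obtain ⟨x, hx⟩ := (h.mem_iff _).mp ⟨h1, ⟨ψ₁, rfl⟩⟩
    obtain ⟨y, hy⟩ := (h'.mem_iff _).mp ⟨h2, ⟨φ₁, rfl⟩⟩
    intro h0
    apply h3
    have h4 : c φ₁ = - (y * c' ψ) := by
      rw [← h.eq, C.swap, hy, LinearMap.smul_apply, smul_eq_mul]
    have h5 : c' ψ = 0 := by
      rw [← h'.eq, C.swap, h.eq, h0, neg_zero]
    rw [hx, LinearMap.smul_apply, h4, h5, mul_zero, neg_zero, smul_zero]
  · intro h0
    refine ⟨ψ, ψ', ?_, ?_, ?_⟩
    · rw [h.eq]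
      exact h.c_mem_line
    · rw [h'.eq]
      exact h'.c_mem_line
    · rw [h.eq]
      exact h0

theorem adj_symm {C : Conf K E ι} {i k : ι} (h : C.adj i k) : C.adj k i := by
  obtain ⟨ψ, φ, h1, h2, h3⟩ := h
  refine ⟨φ, ψ, h2, h1, ?_⟩
  rw [C.swap]
  exact neg_ne_zero.mpr h3

/-- the three types of lines -/
theorem trichotomy (C : Conf K E ι) (i : ι) :
    C.line i ⊓ C.R = ⊥ ∨ i ∈ C.one ∨ C.line i ≤ C.R := by
  have h1 : finrank K (C.line i ⊓ C.R : Submodule K (Dual K E)) ≤ 2 := by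
    rw [← C.finrank_line i]
    exact Submodule.finrank_mono inf_le_left
  rcases Nat.lt_or_ge (finrank K (C.line i ⊓ C.R : Submodule K (Dual K E))) 1 with h2 | h2
  · left
    have h3 : finrank K (C.line i ⊓ C.R : Submodule K (Dual K E)) = 0 := by omega
    exact Submodule.finrank_eq_zero.mp h3
  · right
    rcases Nat.lt_or_ge (finrank K (C.line i ⊓ C.R : Submodule K (Dual K E))) 2 with h3 | h3
    · left
      rw [mem_one_iff]
      omega
    · right
      have h4 : (C.line i ⊓ C.R : Submodule K (Dual K E)) = C.line i := by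
        apply Submodule.eq_of_le_of_finrank_eq inf_le_left
        rw [C.finrank_line i]
        omega
      rw [← h4]
      exact inf_le_right

theorem not_mem_one_of_le {C : Conf K E ι} {i : ι} (h : C.line i ≤ C.R) : i ∉ C.one := by
  rw [mem_one_iff, inf_eq_left.mpr h, C.finrank_line i]
  omega

end Conf

end Pool.Agent.Helper36.LM
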